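import Pool.Agent.Y663.JG.Top

/-! Typical potentials: recurrence of the transfer matrices and purely singular spectrum. -/

set_option autoImplicit false

namespace Pool.Agent.Y663.JG

open MeasureTheory Filter Set Topology
open Pool.Agent.H508R3.SC hiding pT
open Pool.Agent.H116R3.SC8 Pool.Agent.TH310.JS

lemma tsum_ne : (∑' j : ℕ, ENNReal.ofReal (2 * (1 / 2 : ℝ) ^ j)) ≠ ⊤ := by
  rw [← ENNReal.ofReal_tsum_of_nonneg (fun _ => by positivity)
    (summable_geometric_two.mul_left 2)]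
  exact ENNReal.ofReal_ne_top

/-- the shifts -/
noncomputable def sh (h : ℝ) (m : ℕ) (j : ℕ) : ℝ := (((j % (2 * m + 1) : ℕ) : ℝ) - m) * h

lemma sh_le {h : ℝ} (h0 : 0 < h) (m j : ℕ) : |sh h m j| ≤ m * h := by
  have h1 : j % (2 * m + 1) < 2 * m + 1 := Nat.mod_lt _ (by omega)
  have h2 : ((j % (2 * m + 1) : ℕ) : ℝ) ≤ 2 * m := by
    have : j % (2 * m + 1) ≤ 2 * m := by omega
    exact_mod_cast this
  have h3 : (0 : ℝ) ≤ ((j % (2 * m + 1) : ℕ) : ℝ) := Nat.cast_nonneg _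
  rw [sh, abs_mul, abs_of_pos h0]
  refine mul_le_mul_of_nonneg_right ?_ h0.le
  rw [abs_le]
  constructor
  · linarith
  · linarith

/-- from the angles to the energies -/
theorem windows (b : ℕ → ℝ) (C h : ℝ) (h0 : 0 < h) (h1 : h ≤ 1) (m : ℕ)
    (h3 : ∀ᵐ θ ∂(volume : Measure ℝ), θ ∈ TH → ∀ᶠ j in atTop, ∃ n ≥ j, ∀ i k : Fin 2,
        |(pT b (2 * Real.cos θ + sh h m j) n) i k| ≤ C) :
    ∀ᵐ E ∂(volume : Measure ℝ), E ∈ Icc (0.8 - m * h) (m * h + 1.8) →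
      ∃ᶠ n in atTop, ∀ i k : Fin 2, |(pT b E n) i k| ≤ C := by
  -- each shifted window
  have key : ∀ r : ℕ, ∀ᵐ E ∂(volume : Measure ℝ), r ≤ 2 * m →
      E - ((r : ℝ) - m) * h ∈ Icc (0.8 : ℝ) 1.8 →
      ∃ᶠ n in atTop, ∀ i k : Fin 2, |(pT b E n) i k| ≤ C := by
    intro r
    rw [ae_iff] at h3 ⊢
    have himg := addHaar_image_eq_zero_of_differentiableOn_of_addHaar_eq_zero
      (μ := (volume : Measure ℝ)) (f := fun θ : ℝ => 2 * Real.cos θ + ((r : ℝ) - m) * h)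
      (((Real.differentiable_cos.const_mul 2).add_const _).differentiableOn) h3
    refine measure_mono_null ?_ himg
    intro E hE
    simp only [Set.mem_ofPred_eq, Classical.not_imp] at hE
    obtain ⟨hr, hE1, hE2⟩ := hE
    set F : ℝ := E - ((r : ℝ) - m) * h with hF
    have hpi := Real.pi_pos
    have hE3 : F / 2 ≤ Real.cos (Real.pi / 8) := by linarith [hE1.2, cos_bounds.2]
    have hE4 : Real.cos (3 * Real.pi / 8) ≤ F / 2 := by linarith [hE1.1, cos_bounds.1]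
    have hcos : Real.cos (Real.arccos (F / 2)) = F / 2 := by
      apply Real.cos_arccos
      · exact (Real.neg_one_le_cos _).trans hE4
      · exact hE3.trans (Real.cos_le_one _)
    have hmem : Real.arccos (F / 2) ∈ TH := by
      constructor
      · have h1 := Real.arccos_le_arccos hE3
        rwa [Real.arccos_cos (by linarith) (by linarith)] at h1
      · have h1 := Real.arccos_le_arccos hE4
        rwa [Real.arccos_cos (by linarith) (by linarith)] at h1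
    have h2E : 2 * Real.cos (Real.arccos (F / 2)) + ((r : ℝ) - m) * h = E := by
      rw [hcos, hF]; ring
    refine ⟨Real.arccos (F / 2), ?_, h2E⟩
    simp only [Set.mem_ofPred_eq, Classical.not_imp]
    refine ⟨hmem, fun hev => hE2 ?_⟩
    obtain ⟨j0, hj0⟩ := eventually_atTop.1 hev
    rw [frequently_atTop]
    intro N
    set j : ℕ := r + (2 * m + 1) * (max j0 N) with hj
    have hjj : j0 ≤ j ∧ N ≤ j := by
      have h5 : max j0 N ≤ (2 * m + 1) * max j0 N := Nat.le_mul_of_pos_left _ (by omega)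
      have h6 := le_max_left j0 N
      have h7 := le_max_right j0 N
      omega
    have hsj : sh h m j = ((r : ℝ) - m) * h := by
      rw [sh, hj, Nat.add_mul_mod_self_left, Nat.mod_eq_of_lt (by omega)]
    obtain ⟨n, hn1, hn2⟩ := hj0 j hjj.1
    refine ⟨n, by omega, ?_⟩
    rw [hsj, h2E] at hn2
    exact hn2
  filter_upwards [ae_all_iff.2 key] with E hE hEA
  have hEA1 := hEA.1
  have hEA2 := hEA.2
  by_cases hsmall : E ≤ 1.8 - m * h
  · refine hE 0 (Nat.zero_le _) ⟨?_, ?_⟩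
    · push_cast
      linarith
    · push_cast
      linarith
  push Not at hsmall
  have hc1 : (E - 1.8) / h ≤ ⌈(E - 1.8) / h⌉ := Int.le_ceil _
  have hc2 : (⌈(E - 1.8) / h⌉ : ℝ) < (E - 1.8) / h + 1 := Int.ceil_lt_add_one _
  have hc1' : E - 1.8 ≤ ⌈(E - 1.8) / h⌉ * h := (div_le_iff₀ h0).mp hc1
  have hc2' : (⌈(E - 1.8) / h⌉ : ℝ) * h < E - 1.8 + h := by
    have h5 : (⌈(E - 1.8) / h⌉ : ℝ) - 1 < (E - 1.8) / h := by linarith
    rw [lt_div_iff₀ h0] at h5
    linarith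
  have hlow : -(m : ℝ) ≤ (E - 1.8) / h := by
    rw [le_div_iff₀ h0]
    linarith
  have hup : (E - 1.8) / h ≤ m := by
    rw [div_le_iff₀ h0]
    linarith
  have hr0 : 0 ≤ ⌈(E - 1.8) / h⌉ + m := by
    have : (-(m : ℝ)) ≤ ⌈(E - 1.8) / h⌉ := by linarith
    have h5 : (-(m : ℤ)) ≤ ⌈(E - 1.8) / h⌉ := by exact_mod_cast this
    linarith
  have hr1 : ⌈(E - 1.8) / h⌉ ≤ m := by
    rw [Int.ceil_le]
    exact_mod_cast hup
  obtain ⟨r, hr⟩ := Int.eq_ofNat_of_zero_le hr0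
  have hr' : (r : ℝ) - m = ⌈(E - 1.8) / h⌉ := by
    have : ((r : ℤ) : ℝ) = ((⌈(E - 1.8) / h⌉ + m : ℤ) : ℝ) := by rw [hr]
    push_cast at this
    linarith
  refine hE r ?_ ⟨?_, ?_⟩
  · omega
  · rw [hr']
    norm_num at *
    linarith
  · rw [hr']
    linarith

/-- properties of the potentials in all the open sets -/
theorem good (B C h : ℝ) (m : ℕ) (q : Pt B) (hq : ∀ j, q ∈ OO B C (sh h m) j) :
    ∃ n1 n2 : ℕ → ℕ,
      (∀ᵐ E ∂(volume : Measure ℝ), E ≤ 0 → Tendsto (fun j => (pT (pot q) E (n1 j)) 0 0 ^ 2 +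
        (pT (pot q) E (n1 j)) 1 0 ^ 2) atTop atTop) ∧
      (∀ᵐ E ∂(volume : Measure ℝ), 0 ≤ E → Tendsto (fun j => (pT (pot q) E (n2 j)) 0 0 ^ 2 +
        (pT (pot q) E (n2 j)) 1 0 ^ 2) atTop atTop) ∧
      (∀ᵐ θ ∂(volume : Measure ℝ), θ ∈ TH → ∀ᶠ j in atTop, ∃ n ≥ j, ∀ i k : Fin 2,
        |(pT (pot q) (2 * Real.cos θ + sh h m j) n) i k| ≤ C + 1) := by
  choose hq1 hq2 hq3 using hq
  choose n1 hn1 using hq1
  choose n2 hn2 using hq2
  refine ⟨n1, n2, ?_, ?_, ?_⟩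
  · have hbc := ae_eventually_notMem (μ := (volume : Measure ℝ))
      (ne_top_of_le_ne_top tsum_ne (ENNReal.tsum_le_tsum fun j => (hn1 j).le))
    filter_upwards [hbc] with E h1 hE
    refine tendsto_atTop_mono' atTop (f₁ := fun j : ℕ => (j : ℝ) + (-1)) ?_
      (tendsto_atTop_add_const_right _ _ (tendsto_natCast_atTop_atTop (R := ℝ)))
    filter_upwards [h1, eventually_ge_atTop ⌈-E⌉₊] with j hj hj2
    by_contra hcon
    push Not at hcon
    apply hj
    refine ⟨⟨?_, hE⟩, ?_⟩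
    · have := Nat.ceil_le.1 hj2
      linarith
    · intro h5
      have h6 : (j : ℝ) - 1 < (pT (pot q) E (n1 j)) 0 0 ^ 2 + (pT (pot q) E (n1 j)) 1 0 ^ 2 := h5
      linarith
  · have hbc := ae_eventually_notMem (μ := (volume : Measure ℝ))
      (ne_top_of_le_ne_top tsum_ne (ENNReal.tsum_le_tsum fun j => (hn2 j).le))
    filter_upwards [hbc] with E h1 hE
    refine tendsto_atTop_mono' atTop (f₁ := fun j : ℕ => (j : ℝ) + (-1)) ?_
      (tendsto_atTop_add_const_right _ _ (tendsto_natCast_atTop_atTop (R := ℝ)))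
    filter_upwards [h1, eventually_ge_atTop ⌈E⌉₊] with j hj hj2
    by_contra hcon
    push Not at hcon
    apply hj
    refine ⟨⟨hE, ?_⟩, ?_⟩
    · exact Nat.ceil_le.1 hj2
    · intro h5
      have h6 : (j : ℝ) - 1 < (pT (pot q) E (n2 j)) 0 0 ^ 2 + (pT (pot q) E (n2 j)) 1 0 ^ 2 := h5
      linarith
  · have hbc := ae_eventually_notMem (μ := (volume : Measure ℝ))
      (ne_top_of_le_ne_top tsum_ne (ENNReal.tsum_le_tsum fun j => (hq3 j).le))
    filter_upwards [hbc] with θ h1 hθ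
    filter_upwards [h1] with j hj
    have h4 : (q, θ) ∈ S3 B C (sh h m) j := by
      by_contra hcon
      exact hj ⟨hθ, hcon⟩
    obtain ⟨n, hn, h5⟩ := h4
    exact ⟨n, hn, fun i k => (h5 i k).le⟩

open Pool.Agent.H725R3.SC7 in
/-- purely singular spectrum from the growth of one solution -/
theorem spectral0 (b : ℕ → ℝ) {C : ℝ} (hb : ∀ m, |b m| ≤ C) (b' : ℕ → ℝ)
    (hbb : ∀ n, b n = b' (n + 1)) (n1 n2 : ℕ → ℕ)
    (h1 : ∀ᵐ E ∂(volume : Measure ℝ), E ≤ 0 → Tendsto (fun j =>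
        (Pool.Agent.H116R3.SC8.pT b E (n1 j)) 0 0 ^ 2 +
        (Pool.Agent.H116R3.SC8.pT b E (n1 j)) 1 0 ^ 2) atTop atTop)
    (h2 : ∀ᵐ E ∂(volume : Measure ℝ), 0 ≤ E → Tendsto (fun j =>
        (Pool.Agent.H116R3.SC8.pT b E (n2 j)) 0 0 ^ 2 +
        (Pool.Agent.H116R3.SC8.pT b E (n2 j)) 1 0 ^ 2) atTop atTop) :
    ∃ μ : Measure ℝ, IsFiniteMeasure μ ∧ (∃ R : ℝ, μ {x | R < |x|} = 0) ∧
      (∀ k : ℕ, ∫ x, x ^ k ∂μ = ((jac (fun _ => 1) b')^[k] del) 1) ∧ μ ⟂ₘ volume := by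
  have hfin : IsFiniteMeasure (mu b hb) := Pool.Agent.H54R3.Spec508.mu_fin _ _
  refine ⟨mu b hb, hfin, ⟨‖HH b hb‖, Pool.Agent.H54R3.Spec508.mu_out _ _⟩, ?_, ?_⟩
  · intro k
    have e1 := (momg (HH_sa b hb) (ee 0) k).2
    rw [inner_ee, (pow_coord b hb b' hbb k).2 0] at e1
    exact_mod_cast e1
  · have g1 := rn_zero b hb (Iic 0) n1 ((ae_restrict_iff' measurableSet_Iic).2 h1)
    have g2 := rn_zero b hb (Ici 0) n2 ((ae_restrict_iff' measurableSet_Ici).2 h2)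
    rw [ae_restrict_iff' measurableSet_Iic] at g1
    rw [ae_restrict_iff' measurableSet_Ici] at g2
    rw [← Measure.rnDeriv_eq_zero]
    filter_upwards [g1, g2] with E e1 e2
    rcases le_total E 0 with h | h
    · exact e1 h
    · exact e2 h

/-- **Typical potentials.** -/
theorem generic : ∃ C : ℝ, ∀ B : ℝ, 2 < B → ∃ G : Set (Pt B), IsGδ G ∧ Dense G ∧ ∀ q ∈ G,
    (∃ μ : Measure ℝ, IsFiniteMeasure μ ∧ (∃ R : ℝ, μ {x | R < |x|} = 0) ∧
      (∀ k : ℕ, ∫ x, x ^ k ∂μ = ((jac (fun _ => 1) (fun n => pot q (n - 1)))^[k] del) 1) ∧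
      μ ⟂ₘ volume) ∧
    ∀ᵐ E ∂(volume.restrict (Icc (2 - B) B)), ∃ᶠ n in atTop, ∀ i j : Fin 2,
      |(transfer (fun _ => 1) (fun n => pot q (n - 1)) E n) i j| ≤ C := by
  obtain ⟨C1, hU⟩ := univ_ex
  set C : ℝ := 4 * (1 + 1 / Real.sin (Real.pi / 8)) * (1 + C1) with hC
  refine ⟨C + 1, fun B hB => ?_⟩
  set m : ℕ := ⌈B - 1⌉₊ with hm
  have hm1 : B - 1 ≤ m := Nat.le_ceil (B - 1)
  have hm0 : (0 : ℝ) < m := by linarith
  set h : ℝ := (B - 1) / m with hh
  have h0 : 0 < h := div_pos (by linarith) hm0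
  have h1 : h ≤ 1 := (div_le_one hm0).mpr hm1
  have hmh : m * h = B - 1 := by
    rw [hh]
    field_simp
  have hsh : ∀ j, |sh h m j| ≤ B - 1 := fun j => (sh_le h0 m j).trans (le_of_eq hmh)
  refine ⟨⋂ j, OO B C (sh h m) j, IsGδ.iInter_of_isOpen fun j => OO_open B C (sh h m) j,
    dense_iInter_of_isOpen (fun j => OO_open B C (sh h m) j)
      (fun j => OO_dense C1 hU (B - 1) B hB (by linarith) (sh h m) hsh j), ?_⟩
  intro q hq
  obtain ⟨n1, n2, g1, g2, g3⟩ := good B C h m q (fun j => mem_iInter.mp hq j)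
  have hbb : ∀ n, pot q n = (fun n => pot q (n - 1)) (n + 1) := fun n => by simp
  refine ⟨spectral0 (pot q) (pot_le q) (fun n => pot q (n - 1)) hbb n1 n2 g1 g2, ?_⟩
  rw [ae_restrict_iff' measurableSet_Icc]
  filter_upwards [windows (pot q) (C + 1) h h0 h1 m g3] with E hE hEA
  have hEA' : E ∈ Icc (0.8 - m * h) (m * h + 1.8) := by
    rw [hmh]
    constructor
    · norm_num
      linarith [hEA.1]
    · norm_num
      linarith [hEA.2]
  refine (hE hEA').mono fun n hn i j => ?_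
  rw [Pool.Agent.TH310.JS.transfer_eq (pot q) _ hbb]
  exact hn i j

end Pool.Agent.Y663.JG
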