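import Pool.Agent.TH310.JS.Spec

/-! Growth behind barriers of any height above `2` (relative to the energies). -/

set_option autoImplicit false

namespace Pool.Agent.Y663.JG

open MeasureTheory Filter Set Topology
open Pool.Agent.H508R3.SC hiding pT

/-- the expanding eigenvalue of `Am x`, `x ≤ -2` -/
noncomputable def lx (x : ℝ) : ℝ := (x - Real.sqrt (x ^ 2 - 4)) / 2

theorem lx_cont : Continuous lx := by
  unfold lx
  fun_prop

theorem lx_eq {x : ℝ} (hx : x ≤ -2) : lx x ^ 2 + 1 = x * lx x := by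
  have h : Real.sqrt (x ^ 2 - 4) ^ 2 = x ^ 2 - 4 := Real.sq_sqrt (by nlinarith)
  unfold lx
  nlinarith

theorem lx_le {x : ℝ} : lx x ≤ x / 2 := by
  have h := Real.sqrt_nonneg (x ^ 2 - 4)
  unfold lx
  linarith

theorem lx_ge {x : ℝ} (hx : x ≤ -2) : x ≤ lx x := by
  have h : Real.sqrt (x ^ 2 - 4) ≤ -x := by
    rw [Real.sqrt_le_left (by linarith)]
    nlinarith
  unfold lx
  linarith

theorem lx_inj {x y : ℝ} (hx : x ≤ -2) (hy : y ≤ -2) (h : lx x = lx y) : x = y := by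
  have h1 := lx_eq hx
  have h2 := lx_eq hy
  have hne : lx y ≠ 0 := by
    have := lx_le (x := y)
    intro h0
    rw [h0] at this
    linarith
  rw [h, h2] at h1
  exact (mul_right_cancel₀ hne h1).symm

theorem lx_step {x : ℝ} (hx : x ≤ -2) (l : ℕ) (p q : ℝ) :
    lx x * (((Am x) ^ l) 0 0 * p + ((Am x) ^ l) 0 1 * q) -
      (((Am x) ^ l) 1 0 * p + ((Am x) ^ l) 1 1 * q) = (lx x) ^ l * (lx x * p - q) := by
  induction l with
  | zero => simp
  | succ l ih =>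
    have h00 : Am x 0 0 = x := by simp [Am]
    have h01 : Am x 0 1 = -1 := by simp [Am]
    have h10 : Am x 1 0 = 1 := by simp [Am]
    have h11 : Am x 1 1 = 0 := by simp [Am]
    have e : (lx x) ^ (l + 1) * (lx x * p - q) = lx x * ((lx x) ^ l * (lx x * p - q)) := by ring
    rw [e, ← ih, pow_succ']
    simp only [Matrix.mul_apply, Fin.sum_univ_two]
    rw [h00, h01, h10, h11]
    have h1 := lx_eq hx
    linear_combination (-(((Am x) ^ l) 0 0 * p + ((Am x) ^ l) 0 1 * q)) * h1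

theorem lx_lower {x ρ K : ℝ} (hx : x ≤ -2) (hρ0 : 0 ≤ ρ) (hρ : ρ ≤ lx x ^ 2)
    (hK : lx x ^ 2 + 1 ≤ K) (l : ℕ) (p q : ℝ) :
    ρ ^ l * (lx x * p - q) ^ 2 ≤
      K * ((((Am x) ^ l) 0 0 * p + ((Am x) ^ l) 0 1 * q) ^ 2 +
        (((Am x) ^ l) 1 0 * p + ((Am x) ^ l) 1 1 * q) ^ 2) := by
  have h := lx_step hx l p q
  set u := ((Am x) ^ l) 0 0 * p + ((Am x) ^ l) 0 1 * q
  set w := ((Am x) ^ l) 1 0 * p + ((Am x) ^ l) 1 1 * q
  have h1 : (lx x * u - w) ^ 2 ≤ (lx x ^ 2 + 1) * (u ^ 2 + w ^ 2) := by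
    nlinarith [sq_nonneg (u + lx x * w)]
  have h2 : (lx x ^ 2 + 1) * (u ^ 2 + w ^ 2) ≤ K * (u ^ 2 + w ^ 2) :=
    mul_le_mul_of_nonneg_right hK (by positivity)
  have h3 : ρ ^ l ≤ (lx x ^ 2) ^ l := pow_le_pow_left₀ hρ0 hρ l
  have h4 : ρ ^ l * (lx x * p - q) ^ 2 ≤ (lx x ^ 2) ^ l * (lx x * p - q) ^ 2 :=
    mul_le_mul_of_nonneg_right h3 (sq_nonneg _)
  have h5 : (lx x ^ 2) ^ l * (lx x * p - q) ^ 2 = (lx x * u - w) ^ 2 := by
    rw [h, mul_pow, ← pow_mul, ← pow_mul, mul_comm 2 l]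
  linarith

/-- growth behind a barrier of height between `c0` and `c1`, energies below `E0 < c0 - 2` -/
theorem grow2 (c0 c1 E0 : ℝ) (hc : c0 < c1) (hE0 : E0 < c0 - 2) (v : ℝ → ℝ × ℝ)
    (hv : Measurable v) (hne : ∀ E, v E ≠ 0) (R Λ ε : ℝ) (hε : 0 < ε) :
    ∃ c : ℝ, c0 ≤ c ∧ c ≤ c1 ∧ ∃ l : ℕ,
      volume {E ∈ Set.Icc (-R) E0 |
        ((Am (E - c) ^ l) 0 0 * (v E).1 + (Am (E - c) ^ l) 0 1 * (v E).2) ^ 2 +
        ((Am (E - c) ^ l) 1 0 * (v E).1 + (Am (E - c) ^ l) 1 1 * (v E).2) ^ 2 < Λ} ≤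
        ENNReal.ofReal ε := by
  set TH : Set ℝ := Set.Icc (-R) E0 with hTH
  have x_le' : ∀ {E c : ℝ}, E ∈ TH → c0 ≤ c → E - c ≤ E0 - c0 := by
    intro E c hE hc
    have := hE.2
    linarith
  have x_2 : ∀ {E c : ℝ}, E ∈ TH → c0 ≤ c → E - c ≤ -2 := by
    intro E c hE hc
    have := x_le' hE hc
    linarith
  have x_ge : ∀ {E c : ℝ}, E ∈ TH → c ≤ c1 → -R - c1 ≤ E - c := by
    intro E c hE hc
    have := hE.1
    linarith
  let f : ℝ → ℝ → ℝ := fun c E => lx (E - c) * (v E).1 - (v E).2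
  have hf : ∀ c, Measurable (f c) := by
    intro c
    have h1 : Measurable (fun E : ℝ => lx (E - c)) :=
      (lx_cont.comp (continuous_id.sub continuous_const)).measurable
    exact (h1.mul (measurable_fst.comp hv)).sub (measurable_snd.comp hv)
  let cc : ℕ → ℝ := fun i => c0 + (c1 - c0) * (1 / ((i : ℝ) + 1))
  have hcc0 : 0 < c1 - c0 := by linarith
  have hcc1 : ∀ i, c0 ≤ cc i := fun i => by
    have : (0 : ℝ) ≤ (c1 - c0) * (1 / ((i : ℝ) + 1)) := by positivity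
    simp only [cc]; linarith
  have hcc2 : ∀ i, cc i ≤ c1 := fun i => by
    have h1 : 1 / ((i : ℝ) + 1) ≤ 1 := by
      rw [div_le_one (by positivity)]
      have : (0 : ℝ) ≤ (i : ℝ) := Nat.cast_nonneg i
      linarith
    have h2 : (c1 - c0) * (1 / ((i : ℝ) + 1)) ≤ (c1 - c0) * 1 :=
      mul_le_mul_of_nonneg_left h1 hcc0.le
    simp only [cc]; linarith
  have hinj : Function.Injective cc := by
    intro i j hij
    simp only [cc, add_right_inj, mul_eq_mul_left_iff, one_div, inv_inj, add_left_inj,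
      Nat.cast_inj] at hij
    rcases hij with h | h
    · exact h
    · exact absurd h hcc0.ne'
  let B : ℕ → Set ℝ := fun i => TH ∩ {E | f (cc i) E = 0}
  have hBm : ∀ i, MeasurableSet (B i) := fun i =>
    measurableSet_Icc.inter (hf (cc i) (measurableSet_singleton 0))
  have hdisj : Pairwise (Function.onFun Disjoint B) := by
    intro i j hij
    rw [Function.onFun, Set.disjoint_left]
    rintro E ⟨hE, h1⟩ ⟨_, h2⟩
    simp only [Set.mem_ofPred_eq, f] at h1 h2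
    apply hij
    apply hinj
    have hv1 : (v E).1 ≠ 0 := by
      intro h0
      rw [h0, mul_zero, zero_sub, neg_eq_zero] at h1
      exact hne E (Prod.ext h0 h1)
    have h3 : lx (E - cc i) = lx (E - cc j) := by
      have : (lx (E - cc i) - lx (E - cc j)) * (v E).1 = 0 := by
        linarith
      rcases mul_eq_zero.1 this with h | h
      · linarith
      · exact absurd h hv1
    have h4 := lx_inj (x_2 hE (hcc1 i)) (x_2 hE (hcc1 j)) h3
    linarith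
  have hfin : volume TH ≠ ⊤ := by
    rw [hTH, Real.volume_Icc]
    exact ENNReal.ofReal_ne_top
  have hsum : ∑' i, volume (B i) ≠ ⊤ := by
    rw [← measure_iUnion hdisj hBm]
    exact ne_top_of_le_ne_top hfin (measure_mono (Set.iUnion_subset fun i => Set.inter_subset_left))
  have htend := ENNReal.tendsto_atTop_zero_of_tsum_ne_top hsum
  have hpos : (0 : ENNReal) < ENNReal.ofReal ε := ENNReal.ofReal_pos.2 hε
  obtain ⟨i, hi⟩ := (htend.eventually (gt_mem_nhds hpos)).exists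
  refine ⟨cc i, hcc1 i, hcc2 i, ?_⟩
  set ρ : ℝ := ((E0 - c0) / 2) ^ 2 with hρ
  have hρ1 : 1 < ρ := by
    rw [hρ]
    nlinarith
  set K : ℝ := (-R - c1) ^ 2 + 1 with hK
  have hK0 : 0 < K := by positivity
  let D : ℕ → Set ℝ := fun l => TH ∩ {E | ρ ^ l * (f (cc i) E) ^ 2 < K * Λ}
  have hDm : ∀ l, MeasurableSet (D l) := fun l =>
    measurableSet_Icc.inter (measurableSet_lt (((hf (cc i)).pow_const 2).const_mul _)
      measurable_const)
  have hDanti : Antitone D := by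
    intro l m hlm E hE
    have h5 : ρ ^ m * (f (cc i) E) ^ 2 < K * Λ := hE.2
    have h6 : ρ ^ l * (f (cc i) E) ^ 2 ≤ ρ ^ m * (f (cc i) E) ^ 2 :=
      mul_le_mul_of_nonneg_right (pow_le_pow_right₀ hρ1.le hlm) (sq_nonneg _)
    have h7 : ρ ^ l * (f (cc i) E) ^ 2 < K * Λ := lt_of_le_of_lt h6 h5
    exact ⟨hE.1, h7⟩
  have hDfin : ∃ l, volume (D l) ≠ ⊤ :=
    ⟨0, ne_top_of_le_ne_top hfin (measure_mono Set.inter_subset_left)⟩
  have hlim := tendsto_measure_iInter_atTop (μ := (volume : Measure ℝ))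
    (fun l => (hDm l).nullMeasurableSet) hDanti hDfin
  have hsub : (⋂ l, D l) ⊆ B i := by
    intro E hE
    rw [Set.mem_iInter] at hE
    refine ⟨(hE 0).1, ?_⟩
    by_contra h0
    have hsq : 0 < (f (cc i) E) ^ 2 := by
      have : f (cc i) E ≠ 0 := h0
      positivity
    obtain ⟨l, hl⟩ := pow_unbounded_of_one_lt (K * Λ / (f (cc i) E) ^ 2) hρ1
    rw [div_lt_iff₀ hsq] at hl
    exact absurd (hE l).2 (not_lt.2 hl.le)
  have hlt : volume (⋂ l, D l) < ENNReal.ofReal ε := lt_of_le_of_lt (measure_mono hsub) hi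
  obtain ⟨l, hl⟩ := (hlim.eventually (gt_mem_nhds hlt)).exists
  refine ⟨l, le_trans (measure_mono ?_) hl.le⟩
  rintro E ⟨hE, h⟩
  refine ⟨hE, ?_⟩
  have g0 := x_le' hE (hcc1 i)
  have g2 := x_2 hE (hcc1 i)
  have g3 := x_ge hE (hcc2 i)
  have g4 := lx_le (x := E - cc i)
  have g5 := lx_ge g2
  have h1 := lx_lower g2 (by positivity : (0 : ℝ) ≤ ρ) (by rw [hρ]; nlinarith)
    (show lx (E - cc i) ^ 2 + 1 ≤ K by rw [hK]; nlinarith) l (v E).1 (v E).2
  show ρ ^ l * (lx (E - cc i) * (v E).1 - (v E).2) ^ 2 < K * Λ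
  exact lt_of_le_of_lt h1 (mul_lt_mul_of_pos_left h hK0)

/-- the reflected statement -/
theorem grow2' (c0 c1 E0 : ℝ) (hc : c0 < c1) (hE0 : E0 < c0 - 2) (v : ℝ → ℝ × ℝ)
    (hv : Measurable v) (hne : ∀ E, v E ≠ 0) (R Λ ε : ℝ) (hε : 0 < ε) :
    ∃ c : ℝ, c0 ≤ c ∧ c ≤ c1 ∧ ∃ l : ℕ,
      volume {E ∈ Set.Icc (-E0) R |
        ((Am (E - -c) ^ l) 0 0 * (v E).1 + (Am (E - -c) ^ l) 0 1 * (v E).2) ^ 2 +
        ((Am (E - -c) ^ l) 1 0 * (v E).1 + (Am (E - -c) ^ l) 1 1 * (v E).2) ^ 2 < Λ} ≤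
        ENNReal.ofReal ε := by
  obtain ⟨c, hc1, hc2, l, hl⟩ := grow2 c0 c1 E0 hc hE0 (fun F => ((v (-F)).1, -(v (-F)).2))
    ((hv.comp measurable_neg).fst.prodMk (hv.comp measurable_neg).snd.neg)
    (by
      intro F h
      apply hne (-F)
      have h1 : (v (-F)).1 = 0 := congrArg Prod.fst h
      have h2 : -(v (-F)).2 = 0 := congrArg Prod.snd h
      exact Prod.ext h1 (neg_eq_zero.1 h2)) R Λ ε hε
  refine ⟨c, hc1, hc2, l, ?_⟩
  rw [← Measure.measure_neg] at hl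
  refine (measure_mono ?_).trans hl
  rintro E ⟨hE, h⟩
  rw [Set.mem_neg]
  refine ⟨⟨by linarith [hE.2], by linarith [hE.1]⟩, ?_⟩
  simp only [neg_neg]
  obtain ⟨s, hs, h00, h01, h10, h11⟩ := Pool.Agent.TH310.JS.Am_neg_pow (-E - c) l
  have hx : -(-E - c) = E - -c := by ring
  rw [hx] at h00 h01 h10 h11
  rw [h00, h01, h10, h11] at h
  have e1 : (s * (Am (-E - c) ^ l) 0 0 * (v E).1 + -(s * (Am (-E - c) ^ l) 0 1) * (v E).2) ^ 2 +
      (-(s * (Am (-E - c) ^ l) 1 0) * (v E).1 + s * (Am (-E - c) ^ l) 1 1 * (v E).2) ^ 2 =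
      s ^ 2 * (((Am (-E - c) ^ l) 0 0 * (v E).1 + (Am (-E - c) ^ l) 0 1 * -(v E).2) ^ 2 +
      ((Am (-E - c) ^ l) 1 0 * (v E).1 + (Am (-E - c) ^ l) 1 1 * -(v E).2) ^ 2) := by ring
  rw [e1, hs, one_mul] at h
  exact h

end Pool.Agent.Y663.JG
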