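import Pool.Agent.Y663.JG.Grow2

/-! One stage of the construction, with potentials bounded by `B`, `2 < B`, `A + 1 ≤ B`
(the proof follows `step_ex` of the starting library). -/

set_option autoImplicit false

namespace Pool.Agent.Y663.JG

open MeasureTheory Filter Set Topology
open Pool.Agent.H508R3.SC hiding pT
open Pool.Agent.H116R3.SC8 Pool.Agent.TH310.JS

/-- the requirements at one stage -/
def Req2 (C : ℝ) (s : ℕ → ℝ) (W X : List ℝ) (j : ℕ) : Prop :=
  ∃ t1 ≤ X.length, ∃ t2 ≤ X.length,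
    volume {E ∈ Icc (-(j : ℝ)) 0 | (Tw E (W ++ X.take t1)) 0 0 ^ 2 +
      (Tw E (W ++ X.take t1)) 1 0 ^ 2 < j} ≤ ENNReal.ofReal ((1 / 2) ^ j) ∧
    volume {E ∈ Icc 0 (j : ℝ) | (Tw E (W ++ X.take t2)) 0 0 ^ 2 +
      (Tw E (W ++ X.take t2)) 1 0 ^ 2 < j} ≤ ENNReal.ofReal ((1 / 2) ^ j) ∧
    volume {θ ∈ TH | ¬ ∃ t ≤ X.length, ∀ i k : Fin 2,
      |(Tw (2 * Real.cos θ + s j) (W ++ X.take t)) i k| ≤ C} ≤ ENNReal.ofReal ((1 / 2) ^ j)

theorem step_ex3 (C1 : ℝ) (hU : Univ C1) (A B : ℝ) (h2B : 2 < B) (hAB : A + 1 ≤ B) (s : ℕ → ℝ)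
    (hs : ∀ j, |s j| ≤ A) (W : List ℝ) (j : ℕ) :
    ∃ X : List ℝ, (∀ b ∈ X, |b| ≤ B) ∧
      Req2 (4 * (1 + 1 / Real.sin (Real.pi / 8)) * (1 + C1)) s W X j := by
  have hA : 0 ≤ A := (abs_nonneg _).trans (hs 0)
  obtain ⟨c1, h11, h12, l1, hl1⟩ := grow2 ((B + 2) / 2) B 0 (by linarith) (by linarith) _
    (meas_col W) (col_ne W) j j ((1 / 2) ^ j) (by positivity)
  obtain ⟨c2, h21, h22, l2, hl2⟩ := grow2' ((B + 2) / 2) B 0 (by linarith) (by linarith) _
    (meas_col (W ++ List.replicate l1 c1)) (col_ne (W ++ List.replicate l1 c1)) j j ((1 / 2) ^ j)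
    (by positivity)
  rw [neg_zero] at hl2
  set G1 : List ℝ := List.replicate l1 c1 with hG1
  set G2 : List ℝ := List.replicate l2 (-c2) with hG2
  obtain ⟨M, hM⟩ := Th_bdd (((W ++ G1) ++ G2).map (fun b => b - s j))
  obtain ⟨U, hU1, hU2⟩ := hU M ((1 / 2) ^ j) (by positivity)
  set U' : List ℝ := U.map (fun b => b + s j) with hU'
  have hback : ∀ t, (U'.take t).map (fun b => b - s j) = U.take t := by
    intro t
    rw [hU', ← List.map_take, List.map_map]
    have : ((fun b : ℝ => b - s j) ∘ fun b => b + s j) = id := by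
      ext x; simp
    rw [this, List.map_id]
  refine ⟨(G1 ++ G2) ++ U', ?_, G1.length, ?_, (G1 ++ G2).length, ?_, ?_, ?_, ?_⟩
  · intro b hb
    rcases List.mem_append.1 hb with h | h
    · rcases List.mem_append.1 h with h | h
      · rw [hG1] at h
        rw [List.eq_of_mem_replicate h, abs_of_nonneg (by linarith)]
        linarith
      · rw [hG2] at h
        rw [List.eq_of_mem_replicate h, abs_neg, abs_of_nonneg (by linarith)]
        linarith
    · rw [hU', List.mem_map] at h
      obtain ⟨x, hx, rfl⟩ := h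
      have h1 := hU1 x hx
      have h2 := hs j
      have h3 := abs_add_le x (s j)
      linarith
  · simp only [List.length_append]; omega
  · simp only [List.length_append]; omega
  · refine (measure_mono ?_).trans hl1
    rintro E ⟨hE, h⟩
    refine ⟨hE, ?_⟩
    have e1 : ((G1 ++ G2) ++ U').take G1.length = G1 := by
      rw [List.append_assoc, List.take_left']
      rfl
    rw [e1, Tw_append, hG1, Tw_replicate] at h
    simp only [Matrix.mul_apply, Fin.sum_univ_two] at h
    exact h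
  · refine (measure_mono ?_).trans hl2
    rintro E ⟨hE, h⟩
    refine ⟨hE, ?_⟩
    have e1 : ((G1 ++ G2) ++ U').take (G1 ++ G2).length = G1 ++ G2 := by
      rw [List.take_left']
      rfl
    rw [e1, ← List.append_assoc, Tw_append, hG2, Tw_replicate] at h
    simp only [Matrix.mul_apply, Fin.sum_univ_two] at h
    exact h
  · refine (measure_mono ?_).trans hU2
    rintro θ ⟨hθ, h⟩
    refine ⟨hθ, fun hcon => h ?_⟩
    obtain ⟨t, ht, h1⟩ := hcon (Th θ (((W ++ G1) ++ G2).map (fun b => b - s j))) (Th_det θ _)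
      (hM θ hθ)
    refine ⟨(G1 ++ G2).length + t, ?_, ?_⟩
    · simp only [List.length_append, hU', List.length_map]; omega
    · have e1 : ((G1 ++ G2) ++ U').take ((G1 ++ G2).length + t) = (G1 ++ G2) ++ U'.take t := by
        rw [List.take_length_add_append]
      rw [e1, Tw_shift]
      have e2 : (W ++ ((G1 ++ G2) ++ U'.take t)).map (fun b => b - s j) =
          ((W ++ G1) ++ G2).map (fun b => b - s j) ++ U.take t := by
        rw [← hback t, ← List.map_append]
        congr 1
        simp only [List.append_assoc]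
      rw [e2]
      apply Tw_bound hθ
      rw [Th_append]
      exact h1

end Pool.Agent.Y663.JG
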