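import Pool.Agent.Y663.JG.Step

/-! Typical potentials in `[-B, B]^ℕ`: open dense sets. -/

set_option autoImplicit false

namespace Pool.Agent.Y663.JG

open MeasureTheory Filter Set Topology
open Pool.Agent.H508R3.SC hiding pT
open Pool.Agent.H116R3.SC8 Pool.Agent.TH310.JS

/-- the measure of the set of bad energies is an upper semicontinuous function of the parameter -/
lemma open_vol {X : Type} [TopologicalSpace X] (a c : ℝ) {S : Set (X × ℝ)} (hS : IsOpen S)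
    (δ : ENNReal) : IsOpen {x : X | volume {E : ℝ | E ∈ Icc a c ∧ (x, E) ∉ S} < δ} := by
  rw [isOpen_iff_mem_nhds]
  intro x₀ hx
  have hx' : volume {E : ℝ | E ∈ Icc a c ∧ (x₀, E) ∉ S} < δ := hx
  obtain ⟨V, hV, hVo, hVm⟩ := Set.exists_isOpen_lt_of_lt _ _ hx'
  have hK : IsCompact (Icc a c \ V) := isCompact_Icc.diff hVo
  have hev : ∀ᶠ x in 𝓝 x₀, ∀ E ∈ Icc a c \ V, (x, E) ∈ S := by
    apply hK.eventually_forall_of_forall_eventually
    intro E hE
    have h1 : (x₀, E) ∈ S := by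
      by_contra hcon
      exact hE.2 (hV ⟨hE.1, hcon⟩)
    exact hS.mem_nhds h1
  filter_upwards [hev] with x hx2
  refine lt_of_le_of_lt (measure_mono ?_) hVm
  rintro E ⟨hE, hn⟩
  by_contra hcon
  exact hn (hx2 E ⟨hE, hcon⟩)

/-- the space of potentials -/
abbrev Pt (B : ℝ) : Type := ℕ → Icc (-B) B

/-- the potential -/
def pot {B : ℝ} (q : Pt B) : ℕ → ℝ := fun n => (q n : ℝ)

lemma pot_le {B : ℝ} (q : Pt B) (n : ℕ) : |pot q n| ≤ B := abs_le.mpr (q n).2

lemma pT_succ' (b : ℕ → ℝ) (E : ℝ) (n : ℕ) : pT b E (n + 1) =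
    !![E - b n, -1; 1, 0] * pT b E n := Pool.Agent.H725R3.SC7.pT_succ b E n

lemma pT_cont2 (B : ℝ) (n : ℕ) : ∀ i j : Fin 2,
    Continuous (fun p : Pt B × ℝ => pT (pot p.1) p.2 n i j) := by
  induction n with
  | zero =>
    intro i j
    simp only [pT_eq, List.range_zero, List.map_nil, Tw]
    exact continuous_const
  | succ n ih =>
    have hq : Continuous (fun p : Pt B × ℝ => p.2 - pot p.1 n) := by
      unfold pot
      fun_prop
    have h0 : ∀ j : Fin 2, Continuous (fun p : Pt B × ℝ => pT (pot p.1) p.2 (n + 1) 0 j) := by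
      intro j
      have e : (fun p : Pt B × ℝ => pT (pot p.1) p.2 (n + 1) 0 j) = fun p =>
          (p.2 - pot p.1 n) * pT (pot p.1) p.2 n 0 j - pT (pot p.1) p.2 n 1 j := by
        funext p
        rw [pT_succ', Matrix.mul_apply, Fin.sum_univ_two]
        simp
        ring
      rw [e]
      exact (hq.mul (ih 0 j)).sub (ih 1 j)
    have h1 : ∀ j : Fin 2, Continuous (fun p : Pt B × ℝ => pT (pot p.1) p.2 (n + 1) 1 j) := by
      intro j
      have e : (fun p : Pt B × ℝ => pT (pot p.1) p.2 (n + 1) 1 j) = fun p =>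
          pT (pot p.1) p.2 n 0 j := by
        funext p
        rw [pT_succ', Matrix.mul_apply, Fin.sum_univ_two]
        simp
      rw [e]
      exact ih 0 j
    intro i j
    fin_cases i
    · exact h0 j
    · exact h1 j

/-- the first column is large -/
def S1 (B : ℝ) (j n : ℕ) : Set (Pt B × ℝ) :=
  {p | (j : ℝ) - 1 < (pT (pot p.1) p.2 n) 0 0 ^ 2 + (pT (pot p.1) p.2 n) 1 0 ^ 2}

/-- the transfer matrix is bounded for some large length -/
def S3 (B C : ℝ) (s : ℕ → ℝ) (j : ℕ) : Set (Pt B × ℝ) :=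
  {p | ∃ n, j ≤ n ∧ ∀ i k : Fin 2, |(pT (pot p.1) (2 * Real.cos p.2 + s j) n) i k| < C + 1}

lemma S1_open (B : ℝ) (j n : ℕ) : IsOpen (S1 B j n) :=
  isOpen_lt continuous_const (((pT_cont2 B n 0 0).pow 2).add ((pT_cont2 B n 1 0).pow 2))

lemma S3_open (B C : ℝ) (s : ℕ → ℝ) (j : ℕ) : IsOpen (S3 B C s j) := by
  have e : S3 B C s j = ⋃ n, ⋃ (_ : j ≤ n), ⋂ i : Fin 2, ⋂ k : Fin 2,
      {p : Pt B × ℝ | |(pT (pot p.1) (2 * Real.cos p.2 + s j) n) i k| < C + 1} := by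
    ext p
    simp only [S3, Set.mem_ofPred_eq, Set.mem_iUnion, Set.mem_iInter, exists_prop]
  rw [e]
  refine isOpen_iUnion fun n => isOpen_iUnion fun _ => isOpen_iInter_of_finite fun i =>
    isOpen_iInter_of_finite fun k => ?_
  have h1 : Continuous (fun p : Pt B × ℝ => (p.1, 2 * Real.cos p.2 + s j)) := by
    fun_prop
  exact isOpen_lt ((pT_cont2 B n i k).comp h1).abs continuous_const

/-- the three open sets -/
def OO (B C : ℝ) (s : ℕ → ℝ) (j : ℕ) : Set (Pt B) :=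
  {q | (∃ n, volume {E : ℝ | E ∈ Icc (-(j : ℝ)) 0 ∧ (q, E) ∉ S1 B j n} <
      ENNReal.ofReal (2 * (1 / 2) ^ j)) ∧
    (∃ n, volume {E : ℝ | E ∈ Icc 0 (j : ℝ) ∧ (q, E) ∉ S1 B j n} <
      ENNReal.ofReal (2 * (1 / 2) ^ j)) ∧
    volume {θ : ℝ | θ ∈ Icc (Real.pi / 8) (3 * Real.pi / 8) ∧ (q, θ) ∉ S3 B C s j} <
      ENNReal.ofReal (2 * (1 / 2) ^ j)}

lemma OO_open (B C : ℝ) (s : ℕ → ℝ) (j : ℕ) : IsOpen (OO B C s j) := by
  have e : OO B C s j =
      (⋃ n, {q : Pt B | volume {E : ℝ | E ∈ Icc (-(j : ℝ)) 0 ∧ (q, E) ∉ S1 B j n} <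
        ENNReal.ofReal (2 * (1 / 2) ^ j)}) ∩
      ((⋃ n, {q : Pt B | volume {E : ℝ | E ∈ Icc 0 (j : ℝ) ∧ (q, E) ∉ S1 B j n} <
        ENNReal.ofReal (2 * (1 / 2) ^ j)}) ∩
      {q : Pt B | volume {θ : ℝ | θ ∈ Icc (Real.pi / 8) (3 * Real.pi / 8) ∧
        (q, θ) ∉ S3 B C s j} < ENNReal.ofReal (2 * (1 / 2) ^ j)}) := by
    ext q
    simp [OO]
  rw [e]
  exact (isOpen_iUnion fun n => open_vol _ _ (S1_open B j n) _).inter
    ((isOpen_iUnion fun n => open_vol _ _ (S1_open B j n) _).inter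
      (open_vol _ _ (S3_open B C s j) _))

/-- extension of a potential by a word -/
noncomputable def ext {B : ℝ} (hB : 0 ≤ B) (q : Pt B) (N : ℕ) (X : List ℝ)
    (hX : ∀ b ∈ X, |b| ≤ B) : Pt B := fun n =>
  if n < N then q n else if h : n - N < X.length then ⟨X[n - N], abs_le.mp (hX _ (List.getElem_mem h))⟩
    else ⟨0, by constructor <;> linarith⟩

lemma ext_lt {B : ℝ} (hB : 0 ≤ B) (q : Pt B) (N : ℕ) (X : List ℝ)
    (hX : ∀ b ∈ X, |b| ≤ B) {n : ℕ} (hn : n < N) : ext hB q N X hX n = q n := by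
  unfold ext
  rw [if_pos hn]

lemma ext_map {B : ℝ} (hB : 0 ≤ B) (q : Pt B) (N : ℕ) (X : List ℝ)
    (hX : ∀ b ∈ X, |b| ≤ B) {t : ℕ} (ht : t ≤ X.length) :
    (List.range (N + t)).map (pot (ext hB q N X hX)) =
      (List.range N).map (pot q) ++ X.take t := by
  rw [List.range_add, List.map_append]
  congr 1
  · apply List.map_congr_left
    intro n hn
    rw [List.mem_range] at hn
    unfold pot
    rw [ext_lt hB q N X hX hn]
  · apply List.ext_getElem
    · simp only [List.length_map, List.length_range, List.length_take]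
      omega
    · intro i h1 h2
      simp only [List.length_map, List.length_range] at h1
      simp only [List.getElem_map, List.getElem_range, List.getElem_take]
      have h3 : ¬ (N + i < N) := by omega
      have h4 : N + i - N < X.length := by omega
      simp only [pot, ext, if_neg h3, dif_pos h4]
      congr 1
      omega

theorem OO_dense (C1 : ℝ) (hU : Univ C1) (A B : ℝ) (h2B : 2 < B) (hAB : A + 1 ≤ B) (s : ℕ → ℝ)
    (hs : ∀ j, |s j| ≤ A) (j : ℕ) :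
    Dense (OO B (4 * (1 + 1 / Real.sin (Real.pi / 8)) * (1 + C1)) s j) := by
  have hB : 0 ≤ B := by linarith
  set C := 4 * (1 + 1 / Real.sin (Real.pi / 8)) * (1 + C1) with hC
  rw [dense_iff_inter_open]
  rintro U hUo ⟨q0, hq0⟩
  obtain ⟨I, u, hI1, hI2⟩ := isOpen_pi_iff.mp hUo q0 hq0
  set N : ℕ := max j (I.sup id + 1) with hN
  have hNI : ∀ a ∈ I, a < N := by
    intro a ha
    have h1 : a ≤ I.sup id := Finset.le_sup (f := id) ha
    have h2 : I.sup id + 1 ≤ N := le_max_right _ _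
    omega
  have hNj : j ≤ N := le_max_left _ _
  obtain ⟨X, hX, t1, ht1, t2, ht2, hm1, hm2, hm3⟩ :=
    step_ex3 C1 hU A B h2B hAB s hs ((List.range N).map (pot q0)) j
  have hX' : ∀ b ∈ X, |b| ≤ B := fun b hb => hX b hb
  set q : Pt B := ext hB q0 N X hX' with hq
  have hlt : ENNReal.ofReal ((1 / 2) ^ j) < ENNReal.ofReal (2 * (1 / 2) ^ j) := by
    rw [ENNReal.ofReal_lt_ofReal_iff (by positivity)]
    have : (0 : ℝ) < (1 / 2) ^ j := by positivity
    linarith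
  refine ⟨q, hI2 ?_, ⟨N + t1, ?_⟩, ⟨N + t2, ?_⟩, ?_⟩
  · intro a ha
    rw [hq, ext_lt hB q0 N X hX' (hNI a ha)]
    exact (hI1 a ha).2
  · refine lt_of_le_of_lt (measure_mono ?_) (lt_of_le_of_lt hm1 hlt)
    rintro E ⟨hE, hn⟩
    refine ⟨hE, ?_⟩
    have h1 : ¬ ((j : ℝ) - 1 < (pT (pot q) E (N + t1)) 0 0 ^ 2 +
      (pT (pot q) E (N + t1)) 1 0 ^ 2) := hn
    rw [pT_eq, hq, ext_map hB q0 N X hX' ht1] at h1
    linarith
  · refine lt_of_le_of_lt (measure_mono ?_) (lt_of_le_of_lt hm2 hlt)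
    rintro E ⟨hE, hn⟩
    refine ⟨hE, ?_⟩
    have h1 : ¬ ((j : ℝ) - 1 < (pT (pot q) E (N + t2)) 0 0 ^ 2 +
      (pT (pot q) E (N + t2)) 1 0 ^ 2) := hn
    rw [pT_eq, hq, ext_map hB q0 N X hX' ht2] at h1
    linarith
  · refine lt_of_le_of_lt (measure_mono ?_) (lt_of_le_of_lt hm3 hlt)
    rintro θ ⟨hθ, hn⟩
    refine ⟨hθ, ?_⟩
    rintro ⟨t, ht, h1⟩
    apply hn
    refine ⟨N + t, by omega, fun i k => ?_⟩
    change |(pT (pot q) (2 * Real.cos θ + s j) (N + t)) i k| < C + 1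
    rw [pT_eq, hq, ext_map hB q0 N X hX' ht]
    have := h1 i k
    linarith

end Pool.Agent.Y663.JG
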